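import Pool.Agent.Results.MP_c57e60_co.Unbounded
import Pool.Agent.Y426.SCC.Upper
import Pool.Agent.Y426.SCC.Shape
import Pool.Agent.Y426.SCC.K5

set_option autoImplicit false

/-!
# Every positive integer is the value of `t_SCC` of a 3-connected graph with degrees 3 and 4

For every `t ≥ 1` other than `2` and every `L` there is a 3-connected simple graph `G` whose
degrees are all three or four, with at most `6 (18 t + 6 L + 18) ^ (t - 2)` vertices, with
`t_SCC(G) = t`, and with an edge which lies in at least `t` cycles of every cycle cover that is at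
most `L` longer than a shortest cycle cover. For `t = 2` the same holds with `L = 0`.
-/

namespace Pool.Agent.Results.MP_c57e60_co.EveryValue

open Finset Pool.Agent.Helper398.SccA Pool.Agent.Helper398.SccB Pool.Agent.Helper398.SccC
  Pool.Agent.Helper398.SccD Pool.Agent.Helper398.SccE
open Pool.Agent.Results.MP_c57e60_co.Unbounded (ThreeConnected IsCycleCover coverLength
  IsShortestCover mult maxMult tSCC mult_le_max)

/-- The number of edges of a covering family counted with multiplicity, lower bounds. -/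
lemma total_ge (R d : ℕ) (hR : 3 * d + 9 ≤ R) {ι : Type} [Fintype ι]
    (c : ι → (GG R d).E → ZMod 2) (r : ι → Fin 3 → ZMod 2) (h : IsCov (GG R d) c r) :
    BB R d + 2 * (d + 2) ≤ cost (GG R d) c r + (wt (fun a => r a 0) + wt (fun a => r a 1) +
      wt (fun a => r a 2)) ∧
    (wt (fun a => r a 0) < d + 2 → BB R d + 6 ≤ cost (GG R d) c r + (wt (fun a => r a 0) +
      wt (fun a => r a 1) + wt (fun a => r a 2))) ∧
    (1 ≤ d → wt (fun a => r a 0) < d + 2 → BB R d + (2 * R - 2 * (d + 2)) ≤
      cost (GG R d) c r) := by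
  obtain ⟨h1, h2, h3⟩ := lb_GG R d hR ι c r h
  have tri := triple_le (fun a => r a 0) (fun a => r a 1) (fun a => r a 2)
    (fun a => root_sum (h.even a))
  have par := triple_even (fun a => r a 0) (fun a => r a 1) (fun a => r a 2)
    (fun a => root_sum (h.even a))
  have p0 := h.posR 0
  have p1 := h.posR 1
  have p2 := h.posR 2
  have h3' : 1 ≤ d → wt (fun a => r a 0) < d + 2 → BB R d + (2 * R - 2 * (d + 2)) ≤
      cost (GG R d) c r := fun hd => h3 (by omega)
  refine ⟨?_, ?_, h3'⟩
  · rcases Nat.lt_or_ge (wt (fun a => r a 0)) (d + 2) with hlt | hge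
    · rcases Nat.eq_zero_or_pos d with hd | hd
      · by_cases hc : cost (GG R d) c r ≤ BB R d + 1
        · have := (h2 hc).1
          omega
        · omega
      · have := h3' hd hlt
        omega
    · omega
  · intro hlt
    by_cases hc : cost (GG R d) c r ≤ BB R d + 1
    · have := (h2 hc).1
      omega
    · omega

/-- The case `t ≥ 2`. -/
theorem main : ∀ t L : ℕ, 2 ≤ t → (3 ≤ t ∨ L = 0) →
    ∃ (V : Type) (_ : Fintype V) (_ : DecidableEq V) (G : SimpleGraph V),
      ThreeConnected G ∧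
      (∀ v, (G.neighborSet v).ncard = 3 ∨ (G.neighborSet v).ncard = 4) ∧
      Fintype.card V ≤ 6 * (18 * t + 6 * L + 18) ^ (t - 2) ∧
      (∃ F, IsShortestCover G F) ∧
      tSCC G = t ∧
      ∃ e ∈ G.edgeSet, ∀ F, IsCycleCover G F →
        (∀ F', IsShortestCover G F' → coverLength F ≤ coverLength F' + L) → t ≤ mult F e := by
  intro t L ht hL
  obtain ⟨d, rfl⟩ : ∃ d, t = d + 2 := ⟨t - 2, by omega⟩
  obtain ⟨R, hRdef⟩ : ∃ R, R = 3 * (d + 2) + 3 + L := ⟨_, rfl⟩
  have hR : 3 * d + 9 ≤ R := by omega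
  have hR1 : 1 ≤ R := by omega
  have hS := simp_GG R d
  have hi := inj_GG R hR1 d
  have hC := conn_GG R hR1 d
  obtain ⟨n, hn⟩ := Pool.Agent.Y426.SCC.UM_GG R d
  obtain ⟨c, r, hcov, h0, h1, h2, hcost, hmax⟩ := hn n le_rfl
  obtain ⟨C, hC1, hC2, hC3⟩ := Pool.Agent.Helper398.SccG.from_family hS hi c r hcov.even
  have hCcov : IsCycleCover (Pool.Agent.Helper398.SccF.gr (GG R d)) C := by
    refine ⟨hC1, fun e he => ?_⟩
    obtain ⟨x, rfl⟩ := (Pool.Agent.Helper398.SccF.mem_edgeSet hS e).1 he
    have hpos : 0 < Pool.Agent.Helper398.SccF.mult C (Pool.Agent.Helper398.SccF.ed _ x) := by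
      rcases x with x | j
      · rw [hC2]; exact hcov.posE x
      · rw [hC3]; exact hcov.posR j
    obtain ⟨D, hD, hDe⟩ := List.countP_pos_iff.1 hpos
    exact ⟨D, hD, by simpa using hDe⟩
  have hlen : 2 * coverLength C = BB R d + 2 * (d + 2) := by
    unfold coverLength
    rw [Pool.Agent.Helper398.SccF.length_eq hS hi C hC1, Pool.Agent.Helper398.SccF.sum_split]
    simp only [hC2, hC3]
    unfold cost at hcost
    rw [Fin.sum_univ_three] at hcost ⊢
    omega
  -- the length of an arbitrary cover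
  have hall : ∀ F, IsCycleCover (Pool.Agent.Helper398.SccF.gr (GG R d)) F →
      BB R d + 2 * (d + 2) ≤ 2 * coverLength F ∧
      (mult F (Pool.Agent.Helper398.SccF.ed _ (Sum.inr 0)) < d + 2 →
        BB R d + 6 ≤ 2 * coverLength F) ∧
      (1 ≤ d → mult F (Pool.Agent.Helper398.SccF.ed _ (Sum.inr 0)) < d + 2 →
        BB R d + (2 * R - 2 * (d + 2)) ≤ 2 * coverLength F) := by
    intro F hF
    have hcovF := Pool.Agent.Helper398.SccF.cover_cov hS hi F hF.1 hF.2
    have htwo := Pool.Agent.Helper398.SccF.two_length hS hi F hF.1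
    have hlenF : coverLength F = (F.map (fun C => C.2.length)).sum := rfl
    rw [← hlenF] at htwo
    obtain ⟨a1, a2, a3⟩ := total_ge R d hR _ _ hcovF
    rw [Pool.Agent.Helper398.SccF.wtR_mult F 0, Pool.Agent.Helper398.SccF.wtR_mult F 1,
      Pool.Agent.Helper398.SccF.wtR_mult F 2] at a1
    rw [Pool.Agent.Helper398.SccF.wtR_mult F 0, Pool.Agent.Helper398.SccF.wtR_mult F 1,
      Pool.Agent.Helper398.SccF.wtR_mult F 2] at a2
    rw [Pool.Agent.Helper398.SccF.wtR_mult F 0] at a3
    rw [← htwo] at a1 a2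
    refine ⟨a1, a2, fun hd hlt => ?_⟩
    have := a3 hd hlt
    omega
  have hCshort : IsShortestCover (Pool.Agent.Helper398.SccF.gr (GG R d)) C := by
    refine ⟨hCcov, fun F' hF' => ?_⟩
    have := (hall F' hF').1
    omega
  have hedge : Pool.Agent.Helper398.SccF.ed _ (Sum.inr 0) ∈
      (Pool.Agent.Helper398.SccF.gr (GG R d)).edgeSet :=
    (Pool.Agent.Helper398.SccF.mem_edgeSet hS _).2 ⟨_, rfl⟩
  have hrob : ∀ F, IsCycleCover (Pool.Agent.Helper398.SccF.gr (GG R d)) F →
      (∀ F', IsShortestCover (Pool.Agent.Helper398.SccF.gr (GG R d)) F' →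
        coverLength F ≤ coverLength F' + L) →
      d + 2 ≤ mult F (Pool.Agent.Helper398.SccF.ed _ (Sum.inr 0)) := by
    intro F hF hle
    have h3 := hle C hCshort
    obtain ⟨_, b2, b3⟩ := hall F hF
    by_contra hlt
    have hlt' : mult F (Pool.Agent.Helper398.SccF.ed _ (Sum.inr 0)) < d + 2 :=
      Nat.lt_of_not_le hlt
    rcases Nat.eq_zero_or_pos d with hd | hd
    · have := b2 hlt'
      omega
    · have := b3 hd hlt'
      omega
  have hCmax : maxMult C ≤ d + 2 := by
    unfold maxMult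
    have : Nonempty (Pool.Agent.Helper398.SccF.gr (GG R d)).edgeSet := ⟨⟨_, hedge⟩⟩
    refine ciSup_le ?_
    rintro ⟨e, he⟩
    obtain ⟨x, rfl⟩ := (Pool.Agent.Helper398.SccF.mem_edgeSet hS e).1 he
    rcases x with x | j
    · exact (hC2 x).le.trans (hmax x)
    · have hj : ∀ j : Fin 3, j = 0 ∨ j = 1 ∨ j = 2 := by decide
      rcases hj j with rfl | rfl | rfl
      · exact ((hC3 0).trans h0).le
      · exact ((hC3 1).trans h1).le.trans (by omega)
      · exact ((hC3 2).trans h2).le.trans (by omega)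
  refine ⟨_, inferInstance, inferInstance, Pool.Agent.Helper398.SccF.gr (GG R d),
    Pool.Agent.Helper398.SccG.three_conn hS hC hi,
    Pool.Agent.Y426.SCC.deg_gr hS hi (Pool.Agent.Y426.SCC.deg34_GG R d), ?_, ⟨C, hCshort⟩, ?_,
    _, hedge, hrob⟩
  · rw [Fintype.card_option]
    have h3 := (Pool.Agent.Y426.SCC.card_GG R hR1 d).2
    have h4 : 6 * R = 18 * (d + 2) + 6 * L + 18 := by omega
    rw [h4] at h3
    exact h3
  · apply le_antisymm
    · exact (Nat.sInf_le ⟨C, hCshort, rfl⟩ : tSCC _ ≤ maxMult C).trans hCmax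
    · have hmem : tSCC (Pool.Agent.Helper398.SccF.gr (GG R d)) ∈
          {t : ℕ | ∃ F : List (Σ u : Option (GG R d).V,
            (Pool.Agent.Helper398.SccF.gr (GG R d)).Walk u u),
            IsShortestCover (Pool.Agent.Helper398.SccF.gr (GG R d)) F ∧ maxMult F = t} :=
        Nat.sInf_mem ⟨_, C, hCshort, rfl⟩
      obtain ⟨F, hF1, hF2⟩ := hmem
      have h3 := hrob F hF1.1 (fun F' hF' => (hF1.2 F' hF'.1).trans (Nat.le_add_right _ _))
      have h4 := mult_le_max F _ hedge
      exact (h3.trans h4).trans hF2.le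

/-- **Every positive integer is a value of `t_SCC` on 3-connected graphs.** For every `t ≥ 1` and
every `L` (with `L = 0` if `t = 2`) there is a 3-connected simple graph `G` such that
* every vertex has degree three or four,
* `G` has at most `6 (18 t + 6 L + 18) ^ (t - 2)` vertices (`t - 2` is read as `0` for `t = 1`),
* `G` has a shortest cycle cover, and `t_SCC(G) = t`,
* some edge of `G` lies in at least `t` cycles of every cycle cover of `G` whose length exceeds
  that of a shortest cycle cover by at most `L`. -/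
theorem result : ∀ t L : ℕ, 1 ≤ t → (t ≠ 2 ∨ L = 0) →
    ∃ (V : Type) (_ : Fintype V) (_ : DecidableEq V) (G : SimpleGraph V),
      ThreeConnected G ∧
      (∀ v, (G.neighborSet v).ncard = 3 ∨ (G.neighborSet v).ncard = 4) ∧
      Fintype.card V ≤ 6 * (18 * t + 6 * L + 18) ^ (t - 2) ∧
      (∃ F, IsShortestCover G F) ∧
      tSCC G = t ∧
      ∃ e ∈ G.edgeSet, ∀ F, IsCycleCover G F →
        (∀ F', IsShortestCover G F' → coverLength F ≤ coverLength F' + L) → t ≤ mult F e := by
  intro t L ht hL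
  rcases Nat.lt_or_ge t 2 with h | h
  · obtain rfl : t = 1 := by omega
    refine ⟨Fin 5, inferInstance, inferInstance, Pool.Agent.Y426.SCC.K5,
      Pool.Agent.Y426.SCC.three_K5, fun v => Or.inr (Pool.Agent.Y426.SCC.deg_K5 v), ?_,
      ⟨_, Pool.Agent.Y426.SCC.cov_short⟩, Pool.Agent.Y426.SCC.tSCC_K5, s(0, 1),
      Pool.Agent.Y426.SCC.ne_adj (by decide), fun F hF _ =>
        Pool.Agent.Y426.SCC.mult_pos F hF _ (Pool.Agent.Y426.SCC.ne_adj (by decide))⟩
    rw [Fintype.card_fin]
    norm_num
  · exact main t L h (by omega)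

end Pool.Agent.Results.MP_c57e60_co.EveryValue
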